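import Pool.Agent.H7.KR.Stm
import Pool.Agent.H64.SL.POL
import Pool.Agent.H64.SL.AREA
import Pool.Agent.H64.SL.IG

set_option autoImplicit false

/-! # Project KR: the area inequality from `SL` -/

namespace Pool.Agent.H64.KR

open Metric Set Filter Topology
open Pool.Agent.H64.CX (bt rr TP TN GD SN)
open Pool.Agent.H7.SZ (Sc Se)
open Pool.Agent.H7.KR (Lk Sr)
open Pool.Agent.H64.SL (Kq sx)

theorem kq_of {F : ℂ → ℂ} {Λ : ℂ × ℂ → ℂ} (h : Lk F Λ) {q : ℕ} (hq : 1 ≤ q) :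
    Kq q F (fun p => Complex.exp (Λ p / q)) := by
  have hq0 : (q : ℂ) ≠ 0 := by
    have : q ≠ 0 := by omega
    exact_mod_cast this
  have e : ∀ x : ℂ, Complex.exp (x / q) ^ q = Complex.exp x := by
    intro x
    rw [← Complex.exp_nat_mul]
    congr 1
    field_simp
  have hd : DifferentiableOn ℂ (fun p : ℂ × ℂ => Complex.exp (Λ p / q))
      (ball (0 : ℂ) 1 ×ˢ ball (0 : ℂ) 1) := by
    simp only [div_eq_mul_inv]
    exact (h.diff.mul_const _).cexp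
  refine ⟨hd, ?_, ?_, ?_, ?_⟩
  · intro ζ hζ z hz
    show Complex.exp (Λ (ζ, z) / q) = Complex.exp (Λ (z, ζ) / q)
    rw [h.symm ζ hζ z hz]
  · intro ζ hζ z hz
    show Complex.exp (Λ (ζ, z) / q) ^ q * (z - ζ) = F z - F ζ
    rw [e]
    exact h.exp ζ hζ z hz
  · intro ζ hζ
    show Complex.exp (Λ (ζ, ζ) / q) ^ q = deriv F ζ
    rw [e]
    exact h.diag ζ hζ
  · show Complex.exp (Λ (0, 0) / q) = 1
    rw [h.zero, zero_div, Complex.exp_zero]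

/-- the area inequality -/
theorem area {F : ℂ → ℂ} {Λ : ℂ × ℂ → ℂ} {ν : ℕ → ℕ → ℂ} {p N : ℕ} (hF : Sc F) (h : Lk F Λ)
    (hp : 1 ≤ p) (hpN : p < N) (hS : Sr ((p : ℝ) / N) Λ ν) (j M : ℕ) (hj : 1 ≤ j) :
    ∑ n ∈ Finset.range M, ((n : ℝ) + (p : ℝ) / N) *
        ‖TP (-(((p : ℝ) / N : ℝ) : ℂ)) ν n (n + j)‖ ^ 2 ≤
      ∑ k ∈ Finset.Icc 1 j, ((k : ℝ) - (p : ℝ) / N) *
        ‖TN (-(((p : ℝ) / N : ℝ) : ℂ)) ν k (j - k)‖ ^ 2 := by
  have hN0 : (N : ℂ) ≠ 0 := by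
    have : N ≠ 0 := by omega
    exact_mod_cast this
  have hSe : Se (fun x => (fun y => Complex.exp (Λ y / N)) x ^ p) ν := by
    refine ⟨hS.1, fun ζ hζ z hz => ?_⟩
    have h1 := hS.2 ζ hζ z hz
    have e : Complex.exp (Λ (ζ, z) / N) ^ p =
        Complex.exp ((((p : ℝ) / N : ℝ) : ℂ) * Λ (ζ, z)) := by
      rw [← Complex.exp_nat_mul]
      congr 1
      push_cast
      field_simp
    show HasSum _ (Complex.exp (Λ (ζ, z) / N) ^ p)
    rw [e]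
    exact h1
  exact Pool.Agent.H64.SL.area Pool.Agent.H64.SL.pol Pool.Agent.H64.SL.ig p N F _ ν hp hpN hF
    (kq_of h (by omega)) hSe j M hj

end Pool.Agent.H64.KR
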