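import Pool.Agent.H7.KR.Stm
import Pool.Agent.H64.KR.Area
import Pool.Agent.H64.SL.Stm
import Pool.Agent.H64.CX.Whole

set_option autoImplicit false

/-! # Project KR: assembly -/

namespace Pool.Agent.H64.KR

open Metric Set Filter Topology MeasureTheory
open scoped ENNReal
open Pool.Agent.H64.CX (bt rr TP TN GD SN)
open Pool.Agent.W677.Mar (IsG0)
open Pool.Agent.H7.SZ (Sc Se S_GRO S_CORE)
open Pool.Agent.H7.KR

theorem LG_nonneg {s : ℝ} (hs : 0 ≤ s) (μ : ℝ) (ν : ℕ → ℕ → ℂ) (m : ℕ) : 0 ≤ LG s μ ν m := by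
  unfold LG wt
  apply Finset.sum_nonneg
  intro n _
  positivity

theorem PG_nonneg (s μ : ℝ) (ν : ℕ → ℕ → ℂ) (m : ℕ) : 0 ≤ PG s μ ν m := by
  unfold PG wt
  apply Finset.sum_nonneg
  intro n _
  positivity

/-- the means of `|F'|^(2s)`, `F` in the class `S`, `s = p / N` -/
theorem means (lk : S_LK) (warg : S_WARG) (frg : S_FRG)
    (dmg : S_DMG) (sumg : S_SUMG) (lowg : S_LOWG) (gro : S_GRO) (core : S_CORE) (gdg : S_GDG)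
    (fng : S_FNG) (mng : S_MNG) (prg : S_PRG) (gr : Pool.Agent.H64.SL.S_GR)
    (rn : Pool.Agent.H64.CX.S_RN) {F : ℂ → ℂ} (hF : Sc F) {p N : ℕ} (hp : 1 ≤ p) (hpN : p ≤ N)
    (hs4 : (p : ℝ) / N ≤ 1 / 4) {σ : ℝ} (hσ : 0 < σ)
    (hμ : -1 < σ - 2 * ((p : ℝ) / N))
    (hSN : ∃ (δ : ℝ) (M₀ : ℕ), 0 < δ ∧ δ ≤ 1 ∧ ∀ m, M₀ ≤ m →
      ∑' k : ℕ, ENNReal.ofReal (SN (-(((p : ℝ) / N : ℝ) : ℂ)) (σ - 2 * ((p : ℝ) / N)) m (k + 1)) ≤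
        ENNReal.ofReal (1 - δ))
    {ε : ℝ} (hε : 0 < ε) :
    ∃ C : ℝ, 0 ≤ C ∧ ∀ r ∈ Ioo (0 : ℝ) 1,
      ∫ t in (0 : ℝ)..(2 * Real.pi), ‖deriv F (circleMap 0 r t)‖ ^ (2 * ((p : ℝ) / N)) ≤
        C * (1 - r) ^ (-(max σ (6 * ((p : ℝ) / N) - 1) + ε)) := by
  have hN0 : (0 : ℝ) < N := by
    have : 1 ≤ N := hp.trans hpN
    exact_mod_cast this
  have hp0 : (0 : ℝ) < p := by exact_mod_cast hp
  have hs : 0 < (p : ℝ) / N := by positivity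
  have hs2 : (p : ℝ) / N ≤ 1 / 2 := by linarith
  obtain ⟨Λ, hΛ⟩ := lk F hF
  obtain ⟨s, hse⟩ : ∃ s : ℝ, s = (p : ℝ) / N := ⟨_, rfl⟩
  rw [← hse] at hs hs2 hs4 hμ hSN ⊢
  have hKd : DifferentiableOn ℂ (fun q : ℂ × ℂ => Complex.exp ((s : ℂ) * Λ q))
      (ball (0 : ℂ) 1 ×ˢ ball (0 : ℂ) 1) := (hΛ.diff.const_mul _).cexp
  have hKs : ∀ ζ ∈ ball (0 : ℂ) 1, ∀ z ∈ ball (0 : ℂ) 1,
      (fun q : ℂ × ℂ => Complex.exp ((s : ℂ) * Λ q)) (ζ, z) =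
        (fun q : ℂ × ℂ => Complex.exp ((s : ℂ) * Λ q)) (z, ζ) := by
    intro ζ hζ z hz
    show Complex.exp ((s : ℂ) * Λ (ζ, z)) = Complex.exp ((s : ℂ) * Λ (z, ζ))
    rw [hΛ.symm ζ hζ z hz]
  obtain ⟨ν, hν1, hν2⟩ := Pool.Agent.H64.BR.dps _ hKd hKs
  have hS : Sr s Λ ν := ⟨hν1, hν2⟩
  have hS' : Sr ((p : ℝ) / N) Λ ν := by rw [← hse]; exact hS
  have hlt : p < N := by
    have h1 : (p : ℝ) < N := (div_lt_one hN0).1 (by rw [← hse]; linarith)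
    exact_mod_cast h1
  have hAr := area hF hΛ hp hlt hS'
  rw [← hse] at hAr
  have hW := warg s (σ - 2 * s) ν hs hs2 hAr
  have hgr := gro (fun q : ℂ × ℂ => Complex.exp ((s : ℂ) * Λ q)) ν ⟨hν1, hν2⟩
  have hsum := sumg s (σ - 2 * s) ν hs hs2 hgr
  obtain ⟨δ, C₁, m₀, hδ, hC₁, hP⟩ := prg Pool.Agent.H64.CX.idn rn Pool.Agent.H64.CX.un s σ hs hs2 hσ hSN
  have hlog : ∀ m : ℕ, 0 ≤ Real.log ((m : ℝ) + 1) := fun m =>
    Real.log_nonneg (by have : (0 : ℝ) ≤ m := Nat.cast_nonneg m; linarith)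
  have hu0 : ∀ m : ℕ, 0 ≤ ((m : ℝ) + 1) ^ (2 * s - σ) * (1 + Real.log ((m : ℝ) + 1)) * ‖ν 0 m‖ ^ 2 := by
    intro m
    have := hlog m
    positivity
  obtain ⟨B, hB0, hB⟩ := core (LG s (σ - 2 * s) ν) (PG s (σ - 2 * s) ν)
    (fun m => C₁ * (((m : ℝ) + 1) ^ (2 * s - σ) * (1 + Real.log ((m : ℝ) + 1)) * ‖ν 0 m‖ ^ 2))
    (RG s (σ - 2 * s) ν) δ m₀
    (LG_nonneg hs.le _ ν) (PG_nonneg _ _ ν) (fun m => mul_nonneg hC₁ (hu0 m)) hδ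
    (fun m => lowg s σ ν m hs hs2 hσ) hsum hW (fun m hm => hP ν hν1 m hm)
  -- the forced terms
  have hfr : ∀ r ∈ Ioo (0 : ℝ) 1, ∀ n : ℕ,
      ∑ m ∈ Finset.range n, ((N : ℝ) * m + p) * ‖ν 0 m‖ ^ 2 * r ^ (2 * m) *
        r ^ (2 * ((p : ℝ) / N)) ≤ p * ((1 - r) ^ (-2 : ℝ)) ^ (2 * ((p : ℝ) / N)) := by
    intro r hr n
    apply frg F Λ ν p N hF hΛ hp hpN hS' r hr
    intro z hz
    have hz1 : ‖z‖ < 1 := hz.trans_lt hr.2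
    have h1 : 0 < 1 - r := by linarith [hr.2]
    have h2 : 0 < 1 - ‖z‖ := by linarith
    have h3 := gr F hF z (mem_ball_zero_iff.2 hz1)
    have h4 : ‖F z‖ * (1 - r) ^ 2 ≤ 1 := by
      have h5 : (1 - r) ^ 2 ≤ (1 - ‖z‖) ^ 2 := pow_le_pow_left₀ h1.le (by linarith) 2
      have h6 := mul_le_mul_of_nonneg_left h5 (norm_nonneg (F z))
      linarith
    rw [Real.rpow_neg h1.le, show (2 : ℝ) = ((2 : ℕ) : ℝ) by norm_num, Real.rpow_natCast,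
      ← one_div, le_div_iff₀ (by positivity)]
    exact h4
  obtain ⟨C₂, hC₂, hD⟩ := dmg (fun m => ‖ν 0 m‖ ^ 2) p N (fun m => sq_nonneg _) hp hpN hfr
  rw [← hse] at hD
  obtain ⟨C₄, hC₄, hGD⟩ := gdg Pool.Agent.H64.CX.hid Pool.Agent.H64.CX.btu s σ hs hs2 hσ hμ
  have hE : ∀ ρ ∈ Ioo (0 : ℝ) 1, ∑' m : ℕ, ENNReal.ofReal (ρ ^ m * PG s (σ - 2 * s) ν m) ≤
      ENNReal.ofReal (δ⁻¹ * B) + ENNReal.ofReal (δ⁻¹ * C₁) * ∑' m : ℕ, ENNReal.ofReal (ρ ^ m *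
        (((m : ℝ) + 1) ^ (2 * s - σ) * (1 + Real.log ((m : ℝ) + 1)) * ‖ν 0 m‖ ^ 2)) := by
    intro ρ hρ
    have h1 := hB ρ hρ
    have h3 : ∑' m : ℕ, ENNReal.ofReal (ρ ^ m *
        (C₁ * (((m : ℝ) + 1) ^ (2 * s - σ) * (1 + Real.log ((m : ℝ) + 1)) * ‖ν 0 m‖ ^ 2))) =
        ENNReal.ofReal C₁ * ∑' m : ℕ, ENNReal.ofReal (ρ ^ m *
        (((m : ℝ) + 1) ^ (2 * s - σ) * (1 + Real.log ((m : ℝ) + 1)) * ‖ν 0 m‖ ^ 2)) := by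
      rw [← ENNReal.tsum_mul_left]
      apply tsum_congr
      intro m
      rw [← ENNReal.ofReal_mul hC₁]
      congr 1
      ring
    rw [h3] at h1
    have hδe : ENNReal.ofReal δ ≠ 0 := by
      rw [Ne, ENNReal.ofReal_eq_zero, not_le]
      exact hδ
    rw [ENNReal.ofReal_mul (by positivity), ENNReal.ofReal_mul (by positivity), mul_assoc, ← mul_add,
      ENNReal.ofReal_inv_of_pos hδ, ← ENNReal.div_eq_inv_mul,
      ENNReal.le_div_iff_mul_le (Or.inl hδe) (Or.inl ENNReal.ofReal_ne_top), mul_comm]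
    exact h1
  obtain ⟨C₅, hC5⟩ : ∃ C₅ : ℝ, C₅ = max (max C₄ C₂) (max (δ⁻¹ * B) (δ⁻¹ * C₁)) := ⟨_, rfl⟩
  have l1 : C₄ ≤ C₅ := by rw [hC5]; exact (le_max_left _ _).trans (le_max_left _ _)
  have l2 : C₂ ≤ C₅ := by rw [hC5]; exact (le_max_right _ _).trans (le_max_left _ _)
  have l3 : δ⁻¹ * B ≤ C₅ := by rw [hC5]; exact (le_max_left _ _).trans (le_max_right _ _)
  have l4 : δ⁻¹ * C₁ ≤ C₅ := by rw [hC5]; exact (le_max_right _ _).trans (le_max_right _ _)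
  have l0 : 0 ≤ C₅ := hC₄.trans l1
  obtain ⟨B', hB'0, hB'⟩ := fng s σ ε C₅ (fun m => ‖GD ν m‖ ^ 2) (PG s (σ - 2 * s) ν)
    (fun m => ‖ν 0 m‖ ^ 2) hs hs4 hσ hε l0
    (PG_nonneg _ _ ν) (fun m => sq_nonneg _) (fun m hm => by
      refine (hGD ν hν1 m hm).trans ?_
      apply mul_le_mul_of_nonneg_right l1
      have := PG_nonneg s (σ - 2 * s) ν m
      positivity)
    (fun M hM => (hD M hM).trans (by
      apply mul_le_mul_of_nonneg_right l2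
      positivity))
    (fun ρ hρ => (hE ρ hρ).trans (by
      gcongr))
  have hdiag : ∀ z ∈ ball (0 : ℂ) 1, HasSum (fun m : ℕ => GD ν m * z ^ m)
      (Complex.exp ((s : ℂ) * Λ (z, z))) := fun z hz =>
    Pool.Agent.H64.CX.diag_hasSum (K := fun q : ℂ × ℂ => Complex.exp ((s : ℂ) * Λ q))
      Pool.Agent.H64.CX.ser hν2 hz
  have he : 0 < max σ (6 * s - 1) + ε := by
    have := le_max_left σ (6 * s - 1)
    linarith
  obtain ⟨C₆, hC₆, h6⟩ := mng (max σ (6 * s - 1) + ε) (GD ν)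
    (fun z => Complex.exp ((s : ℂ) * Λ (z, z))) B' he hB'0 hdiag hB'
  refine ⟨C₆, hC₆, fun r hr => ?_⟩
  have h7 := h6 r hr
  refine le_trans (le_of_eq ?_) h7
  apply intervalIntegral.integral_congr
  intro t _
  have hz : circleMap 0 r t ∈ ball (0 : ℂ) 1 := by
    rw [mem_ball_zero_iff, norm_circleMap_zero, abs_of_pos hr.1]
    exact hr.2
  show ‖deriv F (circleMap 0 r t)‖ ^ (2 * s) =
    ‖Complex.exp ((s : ℂ) * Λ (circleMap 0 r t, circleMap 0 r t))‖ ^ 2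
  rw [← hΛ.diag _ hz, Complex.norm_exp, Complex.norm_exp, ← Real.exp_mul, ← Real.exp_nat_mul]
  congr 1
  rw [Complex.re_ofReal_mul]
  push_cast
  ring

end Pool.Agent.H64.KR
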