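import Pool.Agent.H64.KR.Asm
import Pool.Agent.H7.SZ.GRO
import Pool.Agent.H7.SZ.CORE
import Pool.Agent.H7.KR.DMG
import Pool.Agent.H7.KR.FNG
import Pool.Agent.H7.KR.FRG
import Pool.Agent.H7.KR.GDG
import Pool.Agent.H7.KR.JEN
import Pool.Agent.H7.KR.KOE
import Pool.Agent.H7.KR.LK
import Pool.Agent.H7.KR.LOWG
import Pool.Agent.H7.KR.MNG
import Pool.Agent.H7.KR.NRM
import Pool.Agent.H7.KR.PRG
import Pool.Agent.H7.KR.SUMG
import Pool.Agent.H7.KR.WARG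
import Pool.Agent.H64.SL.GR
import Pool.Agent.H64.SL.POS
import Pool.Agent.H64.SL.LSU
import Pool.Agent.H64.SL.LSL

set_option autoImplicit false

/-! # Project KR: the bound for all real exponents -/

namespace Pool.Agent.H64.KR

open Metric Set Filter Topology MeasureTheory
open scoped ENNReal
open Pool.Agent.H64.CX (SN sm_lim rn lim2 ubn sinq fch la lb lc ld num2)
open Pool.Agent.H7.KR (II)

theorem sn_left {s : ℝ} (hs : 0 < s) (hs1 : s ≤ 3 / 8) :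
    ∃ (δ : ℝ) (M₀ : ℕ), 0 < δ ∧ δ ≤ 1 ∧ ∀ m, M₀ ≤ m →
      ∑' k : ℕ, ENNReal.ofReal (SN (-(s : ℂ)) (20 / 9 * s ^ 2 - 2 * s) m (k + 1)) ≤
        ENNReal.ofReal (1 - δ) := by
  have hα : (-(s : ℂ)) ≠ 0 := by
    rw [neg_ne_zero, Complex.ofReal_ne_zero]
    exact hs.ne'
  have hn : ‖(-(s : ℂ))‖ = s := by rw [norm_neg, Complex.norm_real, Real.norm_of_nonneg hs.le]
  have hre : (-(s : ℂ)).re = -s := by simp
  have him : (-(s : ℂ)).im = 0 := by simp
  have hL := ubn sinq fch la lb lc ld num2 (-(s : ℂ)) hα (by rw [hre]; linarith)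
    (by rw [hn]; exact hs1)
  rw [hn] at hL
  have h := sm_lim rn lim2 hα (σ := 20 / 9 * s ^ 2) (by rw [hre]; linarith) (by rw [hre]; linarith)
    (by rw [him]; norm_num) (by positivity) (by rw [hre]; nlinarith) hL
  have e : 20 / 9 * s ^ 2 + 2 * (-(s : ℂ)).re = 20 / 9 * s ^ 2 - 2 * s := by rw [hre]; ring
  rw [e] at h
  exact h

/-- the means of an arbitrary univalent function -/
theorem meansf {f : ℂ → ℂ} (hd : DifferentiableOn ℂ f (ball 0 1))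
    (hi : InjOn f (ball 0 1)) {p N : ℕ} (hp : 1 ≤ p) (hpN : p ≤ N) (hs4 : (p : ℝ) / N ≤ 1 / 4)
    {ε : ℝ} (hε : 0 < ε) :
    ∃ C : ℝ, 0 ≤ C ∧ ∀ r ∈ Ioo (0 : ℝ) 1,
      ∫ t in (0 : ℝ)..(2 * Real.pi), ‖deriv f (circleMap 0 r t)‖ ^ (2 * ((p : ℝ) / N)) ≤
        C * (1 - r) ^ (-(max (20 / 9 * ((p : ℝ) / N) ^ 2) (6 * ((p : ℝ) / N) - 1) + ε)) := by
  have hN0 : (0 : ℝ) < N := by
    have : 1 ≤ N := hp.trans hpN
    exact_mod_cast this
  have hp0 : (0 : ℝ) < p := by exact_mod_cast hp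
  have hs : 0 < (p : ℝ) / N := by positivity
  obtain ⟨F, a, hF, ha⟩ := Pool.Agent.H7.KR.nrm f hd hi
  obtain ⟨C, hC0, hC⟩ := means Pool.Agent.H7.KR.lk
    Pool.Agent.H7.KR.warg Pool.Agent.H7.KR.frg Pool.Agent.H7.KR.dmg Pool.Agent.H7.KR.sumg
    Pool.Agent.H7.KR.lowg Pool.Agent.H7.SZ.gro Pool.Agent.H7.SZ.core Pool.Agent.H7.KR.gdg
    Pool.Agent.H7.KR.fng Pool.Agent.H7.KR.mng Pool.Agent.H7.KR.prg Pool.Agent.H64.SL.gr rn hF hp hpN
    hs4 (σ := 20 / 9 * ((p : ℝ) / N) ^ 2) (by positivity) (by nlinarith)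
    (sn_left hs (by linarith)) hε
  refine ⟨‖a‖ ^ (2 * ((p : ℝ) / N)) * C, by positivity, fun r hr => ?_⟩
  have e : ∫ t in (0 : ℝ)..(2 * Real.pi), ‖deriv f (circleMap 0 r t)‖ ^ (2 * ((p : ℝ) / N)) =
      ‖a‖ ^ (2 * ((p : ℝ) / N)) *
        ∫ t in (0 : ℝ)..(2 * Real.pi), ‖deriv F (circleMap 0 r t)‖ ^ (2 * ((p : ℝ) / N)) := by
    rw [← intervalIntegral.integral_const_mul]
    apply intervalIntegral.integral_congr
    intro t _
    have hz : circleMap 0 r t ∈ ball (0 : ℂ) 1 := by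
      rw [mem_ball_zero_iff, norm_circleMap_zero, abs_of_pos hr.1]
      exact hr.2
    show ‖deriv f (circleMap 0 r t)‖ ^ (2 * ((p : ℝ) / N)) =
      ‖a‖ ^ (2 * ((p : ℝ) / N)) * ‖deriv F (circleMap 0 r t)‖ ^ (2 * ((p : ℝ) / N))
    rw [ha _ hz, norm_mul, Real.mul_rpow (norm_nonneg _) (norm_nonneg _)]
  rw [e, mul_assoc]
  exact mul_le_mul_of_nonneg_left (hC r hr) (by positivity)

/-- the exponent for all `l` -/
noncomputable def bl (l : ℝ) : ℝ := max (5 / 9 * l) (3 - 1 / l)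

/-- **the bound for all real exponents `l < 1/2`** -/
theorem upper {f : ℂ → ℂ} (hd : DifferentiableOn ℂ f (ball 0 1))
    (hi : InjOn f (ball 0 1)) {l : ℝ} (hl : 0 < l) (hl2 : l < 1 / 2) {ε : ℝ} (hε : 0 < ε) :
    ∃ C : ℝ, 0 ≤ C ∧ ∀ r ∈ Ioo (0 : ℝ) 1, II l r (deriv f) ≤ C * (1 - r) ^ (-bl l - ε) := by
  have hcont : ContinuousAt bl l := by
    have c1 : ContinuousAt (fun l : ℝ => 5 / 9 * l) l := by fun_prop
    have c2 : ContinuousAt (fun l : ℝ => 3 - 1 / l) l :=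
      continuousAt_const.sub (continuousAt_const.div continuousAt_id hl.ne')
    exact Filter.Tendsto.max c1 c2
  have hev : ∀ᶠ x in 𝓝 l, bl x < bl l + ε / 2 := hcont.eventually (gt_mem_nhds (by linarith))
  obtain ⟨η, hη, hη2⟩ := Metric.eventually_nhds_iff.1 hev
  obtain ⟨x, hx1, hx2⟩ := exists_rat_btwn (show l / 2 < min ((l + η) / 2) (1 / 4) by
    apply lt_min <;> linarith)
  have hx3 : (x : ℝ) < (l + η) / 2 := hx2.trans_le (min_le_left _ _)
  have hx4 : (x : ℝ) < 1 / 4 := hx2.trans_le (min_le_right _ _)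
  have hx0 : (0 : ℝ) < x := by linarith
  have hxq : (0 : ℚ) < x := by exact_mod_cast hx0
  have hnum : 0 < x.num := Rat.num_pos.2 hxq
  obtain ⟨p, hp⟩ : ∃ p : ℕ, (p : ℤ) = x.num := ⟨x.num.toNat, Int.toNat_of_nonneg hnum.le⟩
  have hden : 0 < x.den := x.den_pos
  have hxe : (p : ℝ) / (x.den : ℝ) = (x : ℝ) := by
    rw [Rat.cast_def, ← hp]
    push_cast
    rfl
  have hp1 : 1 ≤ p := by
    have : (0 : ℤ) < p := by rw [hp]; exact hnum
    omega
  have hden0 : (0 : ℝ) < (x.den : ℝ) := by exact_mod_cast hden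
  have hpN : p ≤ x.den := by
    have h1 : (p : ℝ) = x * x.den := by rw [← hxe]; field_simp
    have h2 : (p : ℝ) ≤ x.den := by rw [h1]; nlinarith
    exact_mod_cast h2
  have hlx : l ≤ 2 * (x : ℝ) := by linarith
  have hbx : bl (2 * x) < bl l + ε / 2 := by
    apply hη2
    rw [Real.dist_eq, abs_of_nonneg (by linarith)]
    linarith
  obtain ⟨C, hC0, hC⟩ := meansf hd hi hp1 hpN (by rw [hxe]; exact hx4.le)
    (ε := x * ε) (by positivity)
  rw [hxe] at hC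
  have hcd : ContinuousOn (deriv f) (ball 0 1) := (hd.deriv isOpen_ball).continuousOn
  refine ⟨(1 / (2 * Real.pi) * C) ^ (1 / (2 * (x : ℝ))), by positivity, fun r hr => ?_⟩
  have h1r : 0 < 1 - r := by linarith [hr.2]
  have h1 : II l r (deriv f) ≤ II (2 * x) r (deriv f) :=
    Pool.Agent.H7.KR.jen (deriv f) l (2 * x) r hcd hl hlx hr
  refine h1.trans ?_
  have h2 := hC r hr
  have h3 : 0 ≤ ∫ t in (0 : ℝ)..(2 * Real.pi), ‖deriv f (circleMap 0 r t)‖ ^ (2 * (x : ℝ)) := by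
    apply intervalIntegral.integral_nonneg Real.two_pi_pos.le
    intro t _
    positivity
  unfold II
  have h4 : (1 / (2 * Real.pi) * ∫ t in (0 : ℝ)..(2 * Real.pi),
      ‖deriv f (circleMap 0 r t)‖ ^ (2 * (x : ℝ))) ^ (1 / (2 * (x : ℝ))) ≤
      ((1 / (2 * Real.pi) * C) * (1 - r) ^ (-(max (20 / 9 * (x : ℝ) ^ 2) (6 * (x : ℝ) - 1) + (x : ℝ) * ε))) ^
        (1 / (2 * (x : ℝ))) := by
    apply Real.rpow_le_rpow (by positivity) _ (by positivity)
    rw [mul_assoc]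
    exact mul_le_mul_of_nonneg_left h2 (by positivity)
  refine h4.trans ?_
  rw [Real.mul_rpow (by positivity) (by positivity), ← Real.rpow_mul h1r.le]
  apply mul_le_mul_of_nonneg_left _ (by positivity)
  apply Real.rpow_le_rpow_of_exponent_ge h1r (by linarith [hr.1])
  have h5 : max (20 / 9 * (x : ℝ) ^ 2) (6 * (x : ℝ) - 1) * (1 / (2 * (x : ℝ))) = bl (2 * (x : ℝ)) := by
    unfold bl
    rw [max_mul_of_nonneg _ _ (by positivity)]
    congr 1
    · field_simp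
      ring
    · field_simp
      ring
  have h6 : -(max (20 / 9 * (x : ℝ) ^ 2) (6 * (x : ℝ) - 1) + (x : ℝ) * ε) * (1 / (2 * (x : ℝ))) =
      -bl (2 * (x : ℝ)) - ε / 2 := by
    rw [← h5]
    field_simp
    ring
  rw [h6]
  linarith

end Pool.Agent.H64.KR
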