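import Pool.Agent.H64.KR.Asm2

set_option autoImplicit false

/-! # Project KR: the final statement -/

namespace Pool.Agent.H64.KR

open Metric Set Filter Topology
open Pool.Agent.H7.KR (II)
open Pool.Agent.H64.SL (ordr IM)

theorem ii_pos {f : ℂ → ℂ} (hd : DifferentiableOn ℂ f (ball 0 1)) (hi : InjOn f (ball 0 1)) {l r : ℝ}
    (hl : 0 < l) (hr : r ∈ Ioo (0 : ℝ) 1) : 0 < II l r (deriv f) := by
  have h := Pool.Agent.H64.SL.pos f l r hd hi hl hr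
  unfold IM at h
  unfold II
  rw [one_div (2 * Real.pi)]
  exact h

theorem ord_le {f : ℂ → ℂ} (hd : DifferentiableOn ℂ f (ball 0 1))
    (hi : InjOn f (ball 0 1)) {l : ℝ} (hl : 0 < l) (hl2 : l < 1 / 2) :
    ordr (fun r => II l r (deriv f)) ≤ ((bl l : ℝ) : EReal) := by
  apply Pool.Agent.H64.SL.lsu _ _ (fun r hr => ii_pos hd hi hl hr)
  intro ε hε
  obtain ⟨C, -, hC⟩ := upper hd hi hl hl2 hε
  exact ⟨C, hC⟩

theorem bl_eq {l : ℝ} (h1 : 5 / 14 ≤ l) (h2 : l ≤ 2 / 5) : bl l = 3 - 1 / l := by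
  unfold bl
  apply max_eq_right
  have hl : 0 < l := by linarith
  rw [le_sub_iff_add_le, ← sub_nonneg]
  have e : 3 - (5 / 9 * l + 1 / l) = (3 * l - 5 / 9 * l ^ 2 - 1) / l := by
    field_simp
    ring
  rw [e]
  apply div_nonneg _ hl.le
  nlinarith

/-- the Koebe function -/
noncomputable def kb (z : ℂ) : ℂ := z / (1 - z) ^ 2

theorem kb_diff : DifferentiableOn ℂ kb (ball 0 1) := Pool.Agent.H7.KR.koe.1

theorem kb_inj : InjOn kb (ball 0 1) := Pool.Agent.H7.KR.koe.2.1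

theorem kb_low {l : ℝ} (hl : 0 < l) : ∃ c : ℝ, 0 < c ∧ ∀ r ∈ Ioo (0 : ℝ) 1,
    c * (1 - r) ^ (-(3 - 1 / l)) ≤ II l r (deriv kb) := Pool.Agent.H7.KR.koe.2.2 l hl

theorem ord_kb {l : ℝ} (hl : 0 < l) :
    (((3 - 1 / l : ℝ)) : EReal) ≤ ordr (fun r => II l r (deriv kb)) := by
  obtain ⟨c, hc, h⟩ := kb_low hl
  apply Pool.Agent.H64.SL.lsl _ _ c hc
  intro r hr
  exact h r ⟨by linarith [hr.1], hr.2⟩

end Pool.Agent.H64.KR
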